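import Pool.Agent.Q5.SG.Stm

set_option autoImplicit false

namespace Pool.Agent.Q261.SG

open NumberField IsDedekindDomain Pool.Agent.Y18.LC Pool.Agent.Q5.SG

theorem gi : Pool.Agent.Q5.SG.J_GI := by
  intro hPW p _ hp2 K H _ _ _ _ _ hun S g n j hgood s
  have hp : p.Prime := Fact.out
  have hp0 : (0 : ℝ) < p := by exact_mod_cast hp.pos
  induction s with
  | zero =>
    intro z hz hfix hN
    have hz' : z ∈ CU S H (n + 1) := hz
    obtain ⟨w, hw, hwz⟩ : ∃ w ∈ CU S H 1, w ^ p = z := by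
      by_contra hcon
      push Not at hcon
      exact hgood ⟨z, hz', hfix, hN, hcon⟩
    refine ⟨w, hw, by simpa using hwz, ?_⟩
    refine root_unique hp hp2 hun 1 (smul_EU _ hw.1) hw.1 ?_
    rw [pow_one, ← smul_pow', hwz, hfix]
  | succ s ih =>
    intro z hz hfix hN
    have hz' : z ∈ CU S H (n + 1) := ⟨hz.1, hz.2.mono (by omega)⟩
    obtain ⟨w, hw, hwz⟩ : ∃ w ∈ CU S H 1, w ^ p = z := by
      by_contra hcon
      push Not at hcon
      exact hgood ⟨z, hz', hfix, hN, hcon⟩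
    have hwfix : g ^ p ^ j • w = w := by
      refine root_unique hp hp2 hun 1 (smul_EU _ hw.1) hw.1 ?_
      rw [pow_one, ← smul_pow', hwz, hfix]
    have hwN : ∏ i ∈ Finset.range p, g ^ (i * p ^ (j - 1)) • w = 1 := by
      refine root_unique hp hp2 hun 1 (prod_mem fun i _ => smul_EU _ hw.1) (one_mem _) ?_
      rw [pow_one, one_pow, ← Finset.prod_pow]
      simp only [← smul_pow', hwz]
      exact hN
    have hwc : w ∈ CU S H (n + 1 + s) := by
      refine ⟨hw.1, fun σ hσ => ?_⟩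
      have h1 := hw.2 σ hσ
      rw [pow_one] at h1
      have h2 := hPW p hp2 (σ (w : H)) h1 1
      have h3 := hz.2 σ hσ
      rw [pow_one, pow_one, ← map_pow, ← Units.val_pow_eq_pow_val, hwz] at h2
      rw [h2, show n + 1 + (s + 1) = (n + 1 + s) + 1 by ring, pow_succ'] at h3
      exact le_of_mul_le_mul_left h3 (inv_pos.2 hp0)
    obtain ⟨w', hw', hpow, hfix'⟩ := ih w hwc hwfix hwN
    refine ⟨w', hw', ?_, hfix'⟩
    rw [pow_succ p (s + 1), pow_mul, hpow, hwz]

end Pool.Agent.Q261.SG
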